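import Pool.Agent.H5.BP.Stm

/-!
Criterion for Blaschke products (module I of the project): a bounded holomorphic function, not
identically zero, whose logarithmic means tend to `0` along some radii is a Blaschke product.
-/

set_option autoImplicit false

namespace Pool.Agent.H40.BP

open Complex Metric Set Filter Topology Pool.Agent.H5.BP

/-- Blaschke factor, including the point `0`. -/
noncomputable def fac (w z : ℂ) : ℂ := if w = 0 then z else bfac w z

lemma den_ne {w z : ℂ} (hw : ‖w‖ < 1) (hz : ‖z‖ < 1) : 1 - (starRingEnd ℂ) w * z ≠ 0 := by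
  intro h
  have h1 : (starRingEnd ℂ) w * z = 1 := (sub_eq_zero.mp h).symm
  have h2 : ‖(starRingEnd ℂ) w * z‖ = 1 := by rw [h1, norm_one]
  rw [norm_mul, Complex.norm_conj] at h2
  nlinarith [norm_nonneg w, norm_nonneg z]

lemma fac_eq (w : ℂ) : ∃ c : ℂ, ‖c‖ = 1 ∧ ∀ z, fac w z = c * tau w z := by
  by_cases h : w = 0
  · refine ⟨1, norm_one, fun z => ?_⟩
    simp [fac, h, tau]
  · refine ⟨-(‖w‖ / w), ?_, fun z => ?_⟩
    · rw [norm_neg, norm_div, Complex.norm_real, norm_norm, div_self (norm_ne_zero_iff.mpr h)]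
    · rw [fac, if_neg h, bfac, tau]
      rw [← neg_sub z w, neg_div]
      ring

lemma norm_tau_lt {w z : ℂ} (hw : ‖w‖ < 1) (hz : ‖z‖ < 1) : ‖tau w z‖ < 1 := by
  have hd := den_ne hw hz
  rw [tau, norm_div, div_lt_one (norm_pos_iff.mpr hd)]
  have h1 : ‖z - w‖ ^ 2 < ‖1 - (starRingEnd ℂ) w * z‖ ^ 2 := by
    have e : ‖1 - (starRingEnd ℂ) w * z‖ ^ 2 - ‖z - w‖ ^ 2 = (1 - ‖w‖ ^ 2) * (1 - ‖z‖ ^ 2) := by
      simp only [← Complex.normSq_eq_norm_sq, Complex.normSq_apply]
      simp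
      ring
    have h2 : 0 < (1 - ‖w‖ ^ 2) * (1 - ‖z‖ ^ 2) := by
      apply mul_pos <;> nlinarith [norm_nonneg w, norm_nonneg z]
    linarith
  exact lt_of_pow_lt_pow_left₀ 2 (norm_nonneg _) h1

lemma tau_diff {w : ℂ} (hw : ‖w‖ < 1) : DifferentiableOn ℂ (tau w) (ball 0 1) := by
  intro z hz
  have hd := den_ne hw (mem_ball_zero_iff.mp hz)
  apply DifferentiableAt.differentiableWithinAt
  unfold tau
  apply DifferentiableAt.div
  · fun_prop
  · fun_prop
  · exact hd

lemma tau_inv {w z : ℂ} (hw : ‖w‖ < 1) (hz : ‖z‖ < 1) : tau (-w) (tau w z) = z := by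
  have hd := den_ne hw hz
  have hc : 1 - (starRingEnd ℂ) w * w ≠ 0 := den_ne hw hw
  rw [tau, tau, map_neg]
  generalize (starRingEnd ℂ) w = q at *
  have h2 : 1 - -q * ((z - w) / (1 - q * z)) = (1 - q * w) / (1 - q * z) := by
    rw [eq_div_iff hd, sub_mul, mul_assoc, div_mul_cancel₀ _ hd]
    ring
  have h3 : (z - w) / (1 - q * z) - -w = (z * (1 - q * w)) / (1 - q * z) := by
    rw [eq_div_iff hd, sub_mul, div_mul_cancel₀ _ hd]
    ring
  rw [h2, h3, div_div_div_cancel_right₀ hd, mul_div_cancel_right₀ _ hc]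

/-- the one step lemma -/
lemma step {w : ℂ} (hw : ‖w‖ < 1) {G : ℂ → ℂ} (hG : DifferentiableOn ℂ G (ball 0 1))
    (hb : ∀ z, ‖z‖ < 1 → ‖G z‖ ≤ 1) (h0 : G w = 0) :
    ∃ g : ℂ → ℂ, DifferentiableOn ℂ g (ball 0 1) ∧ (∀ z, ‖z‖ < 1 → ‖g z‖ ≤ 1) ∧
      ∀ z, ‖z‖ < 1 → G z = fac w z * g z := by
  obtain ⟨c, hc, hfac⟩ := fac_eq w
  have hc0 : c ≠ 0 := norm_ne_zero_iff.mp (by rw [hc]; exact one_ne_zero)
  have hwb : w ∈ ball (0 : ℂ) 1 := mem_ball_zero_iff.mpr hw
  have hnw : ‖-w‖ < 1 := by rwa [norm_neg]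
  -- Schwarz
  have hS : ∀ z, ‖z‖ < 1 → ‖G z‖ ≤ ‖tau w z‖ := by
    intro z hz
    have hd : DifferentiableOn ℂ (fun u => G (tau (-w) u)) (ball 0 1) :=
      hG.comp (tau_diff hnw) (fun u hu =>
        mem_ball_zero_iff.mpr (norm_tau_lt hnw (mem_ball_zero_iff.mp hu)))
    have hm : MapsTo (fun u => G (tau (-w) u)) (ball 0 1) (closedBall 0 1) := fun u hu =>
      mem_closedBall_zero_iff.mpr (hb _ (norm_tau_lt hnw (mem_ball_zero_iff.mp hu)))
    have h1 : G (tau (-w) 0) = 0 := by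
      have : tau (-w) 0 = w := by simp [tau]
      rw [this, h0]
    have := Complex.norm_le_norm_of_mapsTo_ball hd hm h1 (norm_tau_lt hw hz)
    simpa only [tau_inv hw hz] using this
  refine ⟨fun z => dslope G w z * (1 - (starRingEnd ℂ) w * z) / c, ?_, ?_, ?_⟩
  · have h1 : DifferentiableOn ℂ (dslope G w) (ball 0 1) :=
      (Complex.differentiableOn_dslope (isOpen_ball.mem_nhds hwb)).mpr hG
    apply DifferentiableOn.div_const
    apply h1.mul
    fun_prop
  · have hne : ∀ z, ‖z‖ < 1 → z ≠ w →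
        ‖dslope G w z * (1 - (starRingEnd ℂ) w * z) / c‖ ≤ 1 := by
      intro z hz hzw
      have hd := den_ne hw hz
      have h1 := hS z hz
      have h2 : dslope G w z = G z / (z - w) := by
        rw [dslope_of_ne _ hzw, slope_def_field, h0, sub_zero]
      have hzw' : z - w ≠ 0 := sub_ne_zero.mpr hzw
      rw [norm_div, hc, div_one, h2, norm_mul, norm_div]
      rw [tau, norm_div, le_div_iff₀ (norm_pos_iff.mpr hd)] at h1
      rw [div_mul_eq_mul_div, div_le_one (norm_pos_iff.mpr hzw')]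
      exact h1
    intro z hz
    by_cases hzw : z = w
    · have hcont : ContinuousAt (fun z => dslope G w z * (1 - (starRingEnd ℂ) w * z) / c) w := by
        have h1 : DifferentiableOn ℂ (dslope G w) (ball 0 1) :=
          (Complex.differentiableOn_dslope (isOpen_ball.mem_nhds hwb)).mpr hG
        have h2 : ContinuousAt (dslope G w) w :=
          (h1.differentiableAt (isOpen_ball.mem_nhds hwb)).continuousAt
        apply ContinuousAt.div_const
        apply h2.mul
        fun_prop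
      rw [hzw]
      have h3 : Tendsto (fun z => ‖dslope G w z * (1 - (starRingEnd ℂ) w * z) / c‖) (𝓝[≠] w)
          (𝓝 ‖dslope G w w * (1 - (starRingEnd ℂ) w * w) / c‖) :=
        (hcont.norm).tendsto.mono_left nhdsWithin_le_nhds
      refine le_of_tendsto h3 ?_
      have h4 : ∀ᶠ z in 𝓝[≠] w, z ∈ ball (0 : ℂ) 1 :=
        nhdsWithin_le_nhds (isOpen_ball.mem_nhds hwb)
      filter_upwards [h4, self_mem_nhdsWithin] with z hz1 hz2
      exact hne z (mem_ball_zero_iff.mp hz1) hz2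
    · exact hne z hz hzw
  · intro z hz
    have hd := den_ne hw hz
    have h1 : (z - w) * dslope G w z = G z := by
      have := sub_smul_dslope G w z
      rw [smul_eq_mul, h0, sub_zero] at this
      exact this
    rw [hfac z, tau, ← h1]
    generalize (starRingEnd ℂ) w = q at *
    have e : c * ((z - w) / (1 - q * z)) * (dslope G w z * (1 - q * z) / c) =
        (z - w) * dslope G w z * (c / c) * ((1 - q * z) / (1 - q * z)) := by ring
    rw [e, div_self hc0, div_self hd, mul_one, mul_one]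

lemma analyticAt_of {g : ℂ → ℂ} (hg : DifferentiableOn ℂ g (ball 0 1)) {v : ℂ} (hv : ‖v‖ < 1) :
    AnalyticAt ℂ g v :=
  hg.analyticAt (isOpen_ball.mem_nhds (mem_ball_zero_iff.mpr hv))

lemma order_fac {w v : ℂ} (hw : ‖w‖ < 1) (hv : ‖v‖ < 1) :
    AnalyticAt ℂ (fac w) v ∧ analyticOrderAt (fac w) v = if v = w then 1 else 0 := by
  obtain ⟨c, hc, hfac⟩ := fac_eq w
  have hc0 : c ≠ 0 := norm_ne_zero_iff.mp (by rw [hc]; exact one_ne_zero)
  have he : fac w = fun z => c * tau w z := funext hfac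
  have ht : AnalyticAt ℂ (tau w) v := analyticAt_of (tau_diff hw) hv
  have ha : AnalyticAt ℂ (fac w) v := by
    rw [he]
    exact analyticAt_const.mul ht
  refine ⟨ha, ?_⟩
  split_ifs with h
  · subst h
    have : ((1 : ℕ) : ℕ∞) = 1 := rfl
    rw [← this, ha.analyticOrderAt_eq_natCast]
    refine ⟨fun z => c / (1 - (starRingEnd ℂ) v * z), ?_, ?_, ?_⟩
    · apply AnalyticAt.div analyticAt_const
      · fun_prop
      · exact den_ne hv hv
    · exact div_ne_zero hc0 (den_ne hv hv)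
    · refine Eventually.of_forall fun z => ?_
      rw [hfac, tau, pow_one, smul_eq_mul]
      ring
  · rw [ha.analyticOrderAt_eq_zero, hfac, tau]
    exact mul_ne_zero hc0 (div_ne_zero (sub_ne_zero.mpr h) (den_ne hw hv))

/-- dividing by a finite product of Blaschke factors -/
lemma iter (Z : Multiset ℂ) : ∀ G : ℂ → ℂ, DifferentiableOn ℂ G (ball 0 1) →
    (∀ z, ‖z‖ < 1 → ‖G z‖ ≤ 1) → (∀ w ∈ Z, ‖w‖ < 1) →
    (∀ w, ‖w‖ < 1 → (Z.count w : ℕ∞) ≤ analyticOrderAt G w) →
    ∃ g : ℂ → ℂ, DifferentiableOn ℂ g (ball 0 1) ∧ (∀ z, ‖z‖ < 1 → ‖g z‖ ≤ 1) ∧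
      (∀ z, ‖z‖ < 1 → G z = (Z.map fun w => fac w z).prod * g z) ∧
      ∀ v, ‖v‖ < 1 → analyticOrderAt G v = Z.count v + analyticOrderAt g v := by
  induction Z using Multiset.induction_on with
  | empty =>
    intro G hG hb _ _
    exact ⟨G, hG, hb, fun z _ => by simp, fun v _ => by simp⟩
  | cons w Z ih =>
    intro G hG hb hZ hcount
    have hw : ‖w‖ < 1 := hZ w (Multiset.mem_cons_self w Z)
    have h1 := hcount w hw
    rw [Multiset.count_cons_self] at h1
    have h2 : analyticOrderAt G w ≠ 0 := by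
      intro h
      rw [h] at h1
      simp at h1
    have h3 : G w = 0 := apply_eq_zero_of_analyticOrderAt_ne_zero h2
    obtain ⟨g, hg, hgb, hgG⟩ := step hw hG hb h3
    have hord : ∀ v, ‖v‖ < 1 → analyticOrderAt G v =
        (if v = w then 1 else 0) + analyticOrderAt g v := by
      intro v hv
      obtain ⟨ha, ho⟩ := order_fac hw hv
      rw [← ho, ← analyticOrderAt_mul ha (analyticAt_of hg hv)]
      apply analyticOrderAt_congr
      filter_upwards [isOpen_ball.mem_nhds (mem_ball_zero_iff.mpr hv)] with z hz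
      exact hgG z (mem_ball_zero_iff.mp hz)
    obtain ⟨g', hg', hgb', hgG', hord'⟩ := ih g hg hgb
      (fun v hv => hZ v (Multiset.mem_cons_of_mem hv)) (fun v hv => by
        have h4 := hcount v hv
        rw [hord v hv] at h4
        by_cases hvw : v = w
        · subst hvw
          rw [Multiset.count_cons_self, if_pos rfl, Nat.cast_add, Nat.cast_one, add_comm] at h4
          exact (ENat.add_le_add_iff_left ENat.one_ne_top).mp h4
        · rw [Multiset.count_cons_of_ne hvw, if_neg hvw, zero_add] at h4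
          exact h4)
    refine ⟨g', hg', hgb', fun z hz => ?_, fun v hv => ?_⟩
    · rw [hgG z hz, hgG' z hz, Multiset.map_cons, Multiset.prod_cons, mul_assoc]
    · rw [hord v hv, hord' v hv]
      by_cases hvw : v = w
      · subst hvw
        rw [Multiset.count_cons_self, if_pos rfl, Nat.cast_add, Nat.cast_one]
        ring
      · rw [Multiset.count_cons_of_ne hvw, if_neg hvw, zero_add]

/-- Schwarz-Pick -/
lemma schwarz_pick {g : ℂ → ℂ} (hg : DifferentiableOn ℂ g (ball 0 1))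
    (hb : ∀ z, ‖z‖ < 1 → ‖g z‖ ≤ 1) {z : ℂ} (hz : ‖z‖ < 1) :
    ‖g z - g 0‖ * (1 - ‖z‖) ≤ 1 - ‖g 0‖ ^ 2 := by
  have h00 : ‖(0 : ℂ)‖ < 1 := by simp
  by_cases h : ∃ z₀, ‖z₀‖ < 1 ∧ ‖g z₀‖ = 1
  · obtain ⟨z₀, hz₀, h1⟩ := h
    have hmax : IsMaxOn (norm ∘ g) (ball 0 1) z₀ := by
      intro x hx
      have := hb x (mem_ball_zero_iff.mp hx)
      simp only [Function.comp_apply, mem_ofPred_eq, h1]
      exact this
    have hEq := Complex.eqOn_of_isPreconnected_of_isMaxOn_norm
      (convex_ball (0 : ℂ) 1).isPreconnected isOpen_ball hg (mem_ball_zero_iff.mpr hz₀) hmax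
    have e1 : g z = g z₀ := hEq (mem_ball_zero_iff.mpr hz)
    have e2 : g 0 = g z₀ := hEq (mem_ball_zero_iff.mpr h00)
    rw [e1, e2, sub_self, norm_zero, zero_mul, h1]
    norm_num
  · push Not at h
    have hlt : ∀ z, ‖z‖ < 1 → ‖g z‖ < 1 := fun z hz => lt_of_le_of_ne (hb z hz) (h z hz)
    have h0 := hlt 0 h00
    have hd : DifferentiableOn ℂ (fun u => tau (g 0) (g u)) (ball 0 1) :=
      (tau_diff h0).comp hg (fun u hu =>
        mem_ball_zero_iff.mpr (hlt _ (mem_ball_zero_iff.mp hu)))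
    have hm : MapsTo (fun u => tau (g 0) (g u)) (ball 0 1) (closedBall 0 1) := fun u hu =>
      mem_closedBall_zero_iff.mpr (norm_tau_lt h0 (hlt _ (mem_ball_zero_iff.mp hu))).le
    have h1 : tau (g 0) (g 0) = 0 := by simp [tau]
    have h2 := Complex.norm_le_norm_of_mapsTo_ball hd hm h1 hz
    have hden := den_ne h0 (hlt z hz)
    simp only [tau] at h2
    rw [norm_div, div_le_iff₀ (norm_pos_iff.mpr hden)] at h2
    have h3 : ‖1 - (starRingEnd ℂ) (g 0) * g z‖ ≤ (1 - ‖g 0‖ ^ 2) + ‖g 0‖ * ‖g z - g 0‖ := by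
      have e : 1 - (starRingEnd ℂ) (g 0) * g z =
          ((1 - ‖g 0‖ ^ 2 : ℝ) : ℂ) - (starRingEnd ℂ) (g 0) * (g z - g 0) := by
        have e2 : (starRingEnd ℂ) (g 0) * g 0 = ((‖g 0‖ ^ 2 : ℝ) : ℂ) := by
          rw [mul_comm, Complex.mul_conj, Complex.normSq_eq_norm_sq]
        rw [mul_sub, e2]
        push_cast
        ring
      rw [e]
      refine (norm_sub_le _ _).trans ?_
      rw [Complex.norm_real, norm_mul, Complex.norm_conj, Real.norm_of_nonneg]
      nlinarith [norm_nonneg (g 0)]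
    have h4 : 0 ≤ 1 - ‖g 0‖ ^ 2 := by nlinarith [norm_nonneg (g 0)]
    have h5 : 0 ≤ ‖g z - g 0‖ := norm_nonneg _
    nlinarith [norm_nonneg z, norm_nonneg (g 0), mul_le_mul_of_nonneg_left h3 (norm_nonneg z),
      mul_nonneg (mul_nonneg (norm_nonneg z) (sub_nonneg.mpr h0.le)) h5,
      mul_nonneg (sub_nonneg.mpr hz.le) h4]


/-- lower bound for the value at `0` of a zero free quotient -/
lemma value_bound {G g : ℂ → ℂ} (hG : DifferentiableOn ℂ G (ball 0 1))
    (hg : DifferentiableOn ℂ g (ball 0 1)) (hle : ∀ z, ‖z‖ < 1 → ‖G z‖ ≤ ‖g z‖)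
    {z₀ : ℂ} (hz₀ : ‖z₀‖ < 1) (hGz₀ : G z₀ ≠ 0) {r ε : ℝ} (hr : 0 < r) (hr1 : r < 1)
    (hne : ∀ z, ‖z‖ ≤ r → g z ≠ 0)
    (hav : Real.circleAverage (fun z => -Real.log ‖G z‖) 0 r ≤ ε) : -ε ≤ Real.log ‖g 0‖ := by
  have hsub : closedBall (0 : ℂ) |r| ⊆ ball 0 1 := by
    rw [abs_of_pos hr]
    exact closedBall_subset_ball hr1
  have hsubs : sphere (0 : ℂ) |r| ⊆ ball 0 1 := sphere_subset_closedBall.trans hsub
  have hGa : AnalyticOnNhd ℂ G (ball 0 1) := hG.analyticOnNhd isOpen_ball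
  have hga : AnalyticOnNhd ℂ g (ball 0 1) := hg.analyticOnNhd isOpen_ball
  have h1 : Real.circleAverage (fun z => Real.log ‖g z‖) 0 r = Real.log ‖g 0‖ :=
    AnalyticOnNhd.circleAverage_log_norm_of_ne_zero (hga.mono hsub) (fun u hu => by
      rw [abs_of_pos hr, mem_closedBall_zero_iff] at hu
      exact hne u hu)
  have hGi : CircleIntegrable (fun z => Real.log ‖G z‖) 0 r :=
    (hGa.mono hsubs).meromorphicOn.circleIntegrable_log_norm
  have hgi : CircleIntegrable (fun z => Real.log ‖g z‖) 0 r :=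
    (hga.mono hsubs).meromorphicOn.circleIntegrable_log_norm
  -- the modified function
  have hcod : (fun z => -Real.log ‖G z‖) =ᶠ[codiscreteWithin (sphere (0 : ℂ) |r|)]
      fun z => if G z = 0 then -Real.log ‖g z‖ else -Real.log ‖G z‖ := by
    have h2 := hGa.preimage_zero_mem_codiscreteWithin hGz₀ (mem_ball_zero_iff.mpr hz₀)
      ((convex_ball (0 : ℂ) 1).isConnected ⟨0, by simp⟩)
    filter_upwards [Filter.codiscreteWithin_mono hsubs h2] with z hz
    have hz' : G z ≠ 0 := hz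
    rw [if_neg hz']
  have h3 := Real.circleAverage_congr_codiscreteWithin hcod hr.ne'
  have hHi : CircleIntegrable (fun z => if G z = 0 then -Real.log ‖g z‖ else -Real.log ‖G z‖) 0 r :=
    CircleIntegrable.congr_codiscreteWithin hcod hGi.neg
  have h4 : Real.circleAverage (fun z => -Real.log ‖g z‖) 0 r ≤
      Real.circleAverage (fun z => if G z = 0 then -Real.log ‖g z‖ else -Real.log ‖G z‖) 0 r := by
    refine Real.circleAverage_mono hgi.neg hHi fun x hx => ?_
    split_ifs with h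
    · exact le_rfl
    · have hx' : ‖x‖ < 1 := mem_ball_zero_iff.mp (hsubs hx)
      exact neg_le_neg (Real.log_le_log (norm_pos_iff.mpr h) (hle x hx'))
  have h5 : Real.circleAverage (fun z => -Real.log ‖g z‖) 0 r = -Real.log ‖g 0‖ := by
    rw [← h1]
    have := Real.circleAverage_fun_smul (a := (-1 : ℝ)) (f := fun z => Real.log ‖g z‖) (c := 0)
      (R := r)
    simpa using this
  rw [h5, ← h3] at h4
  linarith

lemma finite_zeros {G : ℂ → ℂ} (hG : DifferentiableOn ℂ G (ball 0 1)) {z₀ : ℂ} (hz₀ : ‖z₀‖ < 1)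
    (hGz₀ : G z₀ ≠ 0) {r : ℝ} (hr1 : r < 1) : {w : ℂ | ‖w‖ ≤ r ∧ G w = 0}.Finite := by
  by_contra hinf
  have hinf' : {w : ℂ | ‖w‖ ≤ r ∧ G w = 0}.Infinite := hinf
  obtain ⟨x, hx, hacc⟩ := hinf'.exists_accPt_of_subset_isCompact (isCompact_closedBall (0 : ℂ) r)
    (fun w hw => mem_closedBall_zero_iff.mpr hw.1)
  have hGa : AnalyticOnNhd ℂ G (ball 0 1) := hG.analyticOnNhd isOpen_ball
  have hxb : x ∈ ball (0 : ℂ) 1 := closedBall_subset_ball hr1 hx
  have hfr : ∃ᶠ z in 𝓝[≠] x, G z = 0 := by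
    rw [accPt_iff_frequently_nhdsNE] at hacc
    exact hacc.mono fun z hz => hz.2
  have := hGa.eqOn_zero_of_preconnected_of_frequently_eq_zero
    (convex_ball (0 : ℂ) 1).isPreconnected hxb hfr
  exact hGz₀ (this (mem_ball_zero_iff.mpr hz₀))

lemma fac_zero {w : ℂ} (hw : w ≠ 0) : fac w 0 = (‖w‖ : ℂ) := by
  rw [fac, if_neg hw, bfac, mul_zero, sub_zero, sub_zero, div_one, div_mul_cancel₀ _ hw]

/-- I (criterion for Blaschke products). -/
theorem bla : S_bla := by
  intro G hG hb0 ⟨z₀, hz₀, hGz₀⟩ hε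
  have hb : ∀ z, ‖z‖ < 1 → ‖G z‖ ≤ 1 := fun z hz => (hb0 z hz).le
  have h00 : ‖(0 : ℂ)‖ < 1 := by simp
  -- finite orders
  have hfin : ∀ {F : ℂ → ℂ}, DifferentiableOn ℂ F (ball 0 1) → F z₀ ≠ 0 → ∀ w, ‖w‖ < 1 →
      analyticOrderAt F w ≠ ⊤ := by
    intro F hF hF0 w hw htop
    rw [analyticOrderAt_eq_top] at htop
    have := (hF.analyticOnNhd isOpen_ball).eqOn_zero_of_preconnected_of_eventuallyEq_zero
      (convex_ball (0 : ℂ) 1).isPreconnected (mem_ball_zero_iff.mpr hw) htop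
    exact hF0 (this (mem_ball_zero_iff.mpr hz₀))
  -- the zero at the origin
  obtain ⟨k, hk⟩ : ∃ k : ℕ, analyticOrderAt G 0 = k :=
    ⟨analyticOrderNatAt G 0, (Nat.cast_analyticOrderNatAt (hfin hG hGz₀ 0 h00)).symm⟩
  obtain ⟨G₀, hG₀, hb₀, hGG₀, hord₀⟩ := iter (Multiset.replicate k 0) G hG hb
    (fun w hw => by rw [Multiset.eq_of_mem_replicate hw]; exact h00)
    (fun w hw => by
      rw [Multiset.count_replicate]
      split_ifs with h
      · rw [← h, hk]
      · simp)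
  have hGG : ∀ z, ‖z‖ < 1 → G z = z ^ k * G₀ z := by
    intro z hz
    have := hGG₀ z hz
    simpa [fac] using this
  have hG₀z₀ : G₀ z₀ ≠ 0 := by
    intro h
    exact hGz₀ (by rw [hGG z₀ hz₀, h, mul_zero])
  have hG₀0 : G₀ 0 ≠ 0 := by
    have h1 := hord₀ 0 h00
    rw [hk, Multiset.count_replicate_self] at h1
    have h2 : analyticOrderAt G₀ 0 = 0 := by
      have h3 : ((k : ℕ) : ℕ∞) + analyticOrderAt G₀ 0 = (k : ℕ∞) + 0 := by rw [← h1, add_zero]
      exact nonpos_iff_eq_zero.mp ((ENat.add_le_add_iff_left (ENat.natCast_ne_top k)).mp h3.le)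
    exact (analyticAt_of hG₀ h00).analyticOrderAt_eq_zero.mp h2
  have hG₀0' : 0 < ‖G₀ 0‖ := norm_pos_iff.mpr hG₀0
  -- the index set
  let ι : Type := Σ w : {w : ℂ // ‖w‖ < 1 ∧ w ≠ 0}, Fin (analyticOrderNatAt G₀ w)
  let a : ι → ℂ := fun i => i.1.1
  have ha : ∀ i, a i ≠ 0 ∧ ‖a i‖ < 1 := fun i => ⟨i.1.2.2, i.1.2.1⟩
  classical
  have hcountle : ∀ (S : Finset ι) (v : ℂ), ‖v‖ < 1 →
      ((S.val.map a).count v : ℕ∞) ≤ analyticOrderAt G₀ v := by
    intro S v hv
    rw [Multiset.count_map]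
    have h1 : Multiset.card (S.val.filter fun i => v = a i) = (S.filter fun i => v = a i).card := rfl
    rw [h1]
    by_cases hv0 : v = 0
    · rw [Finset.filter_false_of_mem (fun i _ => by rw [hv0]; exact (ha i).1.symm)]
      simp
    · rw [← Nat.cast_analyticOrderNatAt (hfin hG₀ hG₀z₀ v hv), Nat.cast_le]
      have h2 : (S.filter fun i => v = a i) ⊆ Finset.univ.image
          (fun j : Fin (analyticOrderNatAt G₀ v) => (⟨⟨v, hv, hv0⟩, j⟩ : ι)) := by
        intro i hi
        obtain ⟨⟨w, hw⟩, j⟩ := i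
        have h3 : v = w := (Finset.mem_filter.mp hi).2
        subst h3
        exact Finset.mem_image.mpr ⟨j, Finset.mem_univ _, rfl⟩
      refine (Finset.card_le_card h2).trans (Finset.card_image_le.trans ?_)
      rw [Finset.card_univ, Fintype.card_fin]
  have hex : ∀ S : Finset ι, ∃ g : ℂ → ℂ, DifferentiableOn ℂ g (ball 0 1) ∧
      (∀ z, ‖z‖ < 1 → ‖g z‖ ≤ 1) ∧
      (∀ z, ‖z‖ < 1 → G₀ z = (∏ i ∈ S, bfac (a i) z) * g z) ∧
      ∀ v, ‖v‖ < 1 → analyticOrderAt G₀ v = (S.val.map a).count v + analyticOrderAt g v := by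
    intro S
    obtain ⟨g, h1, h2, h3, h4⟩ := iter (S.val.map a) G₀ hG₀ hb₀ (fun w hw => by
      obtain ⟨i, _, rfl⟩ := Multiset.mem_map.mp hw
      exact (ha i).2) (hcountle S)
    refine ⟨g, h1, h2, fun z hz => ?_, h4⟩
    rw [h3 z hz, Multiset.map_map, Finset.prod]
    congr 2
    refine Multiset.map_congr rfl fun i _ => ?_
    rw [Function.comp_apply, fac, if_neg (ha i).1]
  choose g hg hgb hgG hgord using hex
  let p : Finset ι → ℝ := fun S => ∏ i ∈ S, ‖a i‖
  have hp : ∀ S, 0 < p S := fun S => Finset.prod_pos fun i _ => norm_pos_iff.mpr (ha i).1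
  have hb0' : ∀ i, bfac (a i) 0 = (‖a i‖ : ℂ) := fun i => by
    rw [← fac_zero (ha i).1, fac, if_neg (ha i).1]
  have hval : ∀ S, G₀ 0 = (p S : ℂ) * g S 0 := by
    intro S
    rw [hgG S 0 h00]
    congr 1
    simp only [p, hb0']
    push_cast
    rfl
  have hvaln : ∀ S, ‖G₀ 0‖ = p S * ‖g S 0‖ := by
    intro S
    conv_lhs => rw [hval S]
    rw [norm_mul, Complex.norm_real, Real.norm_of_nonneg (hp S).le]
  have hlow : ∀ S, ‖G₀ 0‖ ≤ p S := by
    intro S
    rw [hvaln S]
    exact mul_le_of_le_one_right (hp S).le (hgb S 0 h00)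
  -- upper bound
  have hup : ∀ δ : ℝ, 0 < δ → ∃ S, p S ≤ ‖G₀ 0‖ * Real.exp δ := by
    intro δ hδ
    obtain ⟨r, -, hr0, hr1, hav⟩ := hε δ hδ 0 one_pos
    have hfz := finite_zeros hG₀ hz₀ hG₀z₀ hr1
    have hSfin : {i : ι | ‖a i‖ ≤ r}.Finite := by
      apply Set.Finite.of_finite_fibers (fun i : ι => i.1)
      · refine Set.Finite.subset (hfz.preimage Subtype.val_injective.injOn) ?_
        rintro _ ⟨i, hi, rfl⟩
        refine ⟨hi, ?_⟩
        by_contra hne
        have h1 := (analyticAt_of hG₀ i.1.2.1).analyticOrderAt_eq_zero.mpr hne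
        have h2 : analyticOrderNatAt G₀ i.1 = 0 := by rw [analyticOrderNatAt, h1]; rfl
        exact (Fin.cast h2 i.2).elim0
      · intro x _
        refine Set.Finite.subset (Set.finite_range (fun j => (⟨x, j⟩ : ι))) ?_
        rintro ⟨y, j⟩ ⟨_, hy⟩
        have : y = x := hy
        subst this
        exact ⟨j, rfl⟩
    let S := hSfin.toFinset
    have hne : ∀ z, ‖z‖ ≤ r → g S z ≠ 0 := by
      intro v hvr
      have hv : ‖v‖ < 1 := hvr.trans_lt hr1
      have h1 := hgord S v hv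
      have h2 : analyticOrderAt G₀ v ≤ ((S.val.map a).count v : ℕ∞) := by
        by_cases hv0 : v = 0
        · rw [hv0, (analyticAt_of hG₀ h00).analyticOrderAt_eq_zero.mpr hG₀0]
          exact zero_le
        · rw [← Nat.cast_analyticOrderNatAt (hfin hG₀ hG₀z₀ v hv), Nat.cast_le,
            Multiset.count_map]
          have h3 : Finset.univ.image
              (fun j : Fin (analyticOrderNatAt G₀ v) => (⟨⟨v, hv, hv0⟩, j⟩ : ι)) ⊆
              (S.filter fun i => v = a i) := by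
            intro i hi
            obtain ⟨j, _, rfl⟩ := Finset.mem_image.mp hi
            refine Finset.mem_filter.mpr ⟨?_, rfl⟩
            rw [Set.Finite.mem_toFinset]
            exact hvr
          have h4 : Multiset.card (S.val.filter fun i => v = a i) =
            (S.filter fun i => v = a i).card := rfl
          rw [h4]
          refine le_trans (le_of_eq ?_) (Finset.card_le_card h3)
          have hinj : Function.Injective
              (fun j : Fin (analyticOrderNatAt G₀ v) => (⟨⟨v, hv, hv0⟩, j⟩ : ι)) :=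
            fun j j' h => eq_of_heq (Sigma.mk.inj_iff.mp h).2
          rw [Finset.card_image_of_injective _ hinj, Finset.card_univ, Fintype.card_fin]
      have h5 : analyticOrderAt (g S) v = 0 := by
        have h6 : ((S.val.map a).count v : ℕ∞) + analyticOrderAt (g S) v ≤
            ((S.val.map a).count v : ℕ∞) + 0 := by rw [add_zero, ← h1]; exact h2
        exact nonpos_iff_eq_zero.mp ((ENat.add_le_add_iff_left (ENat.natCast_ne_top _)).mp h6)
      exact (analyticAt_of (hg S) hv).analyticOrderAt_eq_zero.mp h5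
    have hle : ∀ z, ‖z‖ < 1 → ‖G z‖ ≤ ‖g S z‖ := by
      intro z hz
      rw [hGG z hz, hgG S z hz, norm_mul, norm_mul, norm_pow, norm_prod, ← mul_assoc]
      apply mul_le_of_le_one_left (norm_nonneg _)
      apply mul_le_one₀ (pow_le_one₀ (norm_nonneg _) hz.le)
        (Finset.prod_nonneg fun i _ => norm_nonneg _)
      apply Finset.prod_le_one (fun i _ => norm_nonneg _)
      intro i _
      obtain ⟨c, hc, hfac⟩ := fac_eq (a i)
      have h1 : bfac (a i) z = c * tau (a i) z := by rw [← hfac, fac, if_neg (ha i).1]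
      rw [h1, norm_mul, hc, one_mul]
      exact (norm_tau_lt (ha i).2 hz).le
    have hvb := value_bound hG (hg S) hle hz₀ hGz₀ hr0 hr1 hne hav
    refine ⟨S, ?_⟩
    have hgpos : 0 < ‖g S 0‖ := norm_pos_iff.mpr (hne 0 (by simpa using hr0.le))
    have h7 : Real.exp (-δ) ≤ ‖g S 0‖ := by
      rw [← Real.exp_log hgpos]
      exact Real.exp_le_exp.mpr hvb
    rw [hvaln S, mul_assoc]
    apply le_mul_of_one_le_right (hp S).le
    calc (1 : ℝ) = Real.exp (-δ) * Real.exp δ := by rw [← Real.exp_add]; simp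
      _ ≤ ‖g S 0‖ * Real.exp δ := mul_le_mul_of_nonneg_right h7 (Real.exp_pos δ).le
  -- limit of the products
  have hanti : Antitone p := by
    intro S T hST
    show ∏ i ∈ T, ‖a i‖ ≤ ∏ i ∈ S, ‖a i‖
    rw [← Finset.prod_sdiff hST]
    exact mul_le_of_le_one_left (hp S).le
      (Finset.prod_le_one (fun i _ => norm_nonneg _) (fun i _ => (ha i).2.le))
  have hglb : IsGLB (range p) ‖G₀ 0‖ := by
    refine ⟨?_, ?_⟩
    · rintro _ ⟨S, rfl⟩
      exact hlow S
    · intro b hbd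
      have h1 : ∀ δ : ℝ, 0 < δ → b ≤ ‖G₀ 0‖ * Real.exp δ := by
        intro δ hδ
        obtain ⟨S, hS⟩ := hup δ hδ
        exact (hbd ⟨S, rfl⟩).trans hS
      have h2 : Tendsto (fun δ : ℝ => ‖G₀ 0‖ * Real.exp δ) (𝓝[>] 0) (𝓝 (‖G₀ 0‖ * Real.exp 0)) := by
        apply Tendsto.mono_left _ nhdsWithin_le_nhds
        exact (continuous_const.mul Real.continuous_exp).tendsto 0
      rw [Real.exp_zero, mul_one] at h2
      refine ge_of_tendsto h2 ?_
      filter_upwards [self_mem_nhdsWithin] with δ hδ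
      exact h1 δ hδ
  have hlim : Tendsto p atTop (𝓝 ‖G₀ 0‖) := tendsto_atTop_isGLB hanti hglb
  let u : ℂ := G₀ 0 / ‖G₀ 0‖
  have hu : u ≠ 0 := div_ne_zero hG₀0 (by exact_mod_cast hG₀0'.ne')
  have hg0 : ∀ S, g S 0 = G₀ 0 / (p S : ℂ) := by
    intro S
    rw [eq_div_iff (by exact_mod_cast (hp S).ne'), mul_comm]
    exact (hval S).symm
  have hlimg0 : Tendsto (fun S => g S 0) atTop (𝓝 u) := by
    simp only [hg0]
    apply Tendsto.div tendsto_const_nhds
    · exact (Complex.continuous_ofReal.tendsto _).comp hlim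
    · exact_mod_cast hG₀0'.ne'
  have hun : ‖u‖ = 1 := by
    simp only [u, norm_div, Complex.norm_real, norm_norm]
    exact div_self hG₀0'.ne'
  have hlimn : Tendsto (fun S => 1 - ‖g S 0‖ ^ 2) atTop (𝓝 0) := by
    have := (tendsto_const_nhds (x := (1 : ℝ))).sub ((hlimg0.norm).pow 2)
    simpa [hun] using this
  have hlimg : ∀ z, ‖z‖ < 1 → Tendsto (fun S => g S z) atTop (𝓝 u) := by
    intro z hz
    have hz' : 0 < 1 - ‖z‖ := sub_pos.mpr hz
    have h1 : Tendsto (fun S => g S z - g S 0) atTop (𝓝 0) := by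
      apply squeeze_zero_norm (a := fun S => (1 - ‖g S 0‖ ^ 2) / (1 - ‖z‖))
      · intro S
        rw [le_div_iff₀ hz']
        exact schwarz_pick (hg S) (hgb S) hz
      · have := hlimn.div_const (1 - ‖z‖)
        simpa using this
    have h2 := h1.add hlimg0
    simpa using h2
  have hprod : ∀ z, ‖z‖ < 1 → HasProd (fun i => bfac (a i) z) (G₀ z * u⁻¹) := by
    intro z hz
    have h1 : Tendsto (fun S => G₀ z * (g S z)⁻¹) atTop (𝓝 (G₀ z * u⁻¹)) :=
      ((hlimg z hz).inv₀ hu).const_mul _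
    have h2 : Tendsto (fun S : Finset ι => ∏ i ∈ S, bfac (a i) z) atTop (𝓝 (G₀ z * u⁻¹)) := by
      refine h1.congr' ?_
      filter_upwards [(hlimg z hz).eventually_ne hu] with S hS
      rw [hgG S z hz, mul_inv_cancel_right₀ hS]
    simpa [HasProd] using h2
  refine ⟨(G₀ 0).arg, k, ι, a, ha, ?_, fun z hz => ⟨(hprod z hz).multipliable, ?_⟩⟩
  · refine summable_of_sum_le (c := -Real.log ‖G₀ 0‖) (fun i => sub_nonneg.mpr (ha i).2.le) ?_
    intro S
    calc ∑ i ∈ S, (1 - ‖a i‖) ≤ ∑ i ∈ S, -Real.log ‖a i‖ := by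
          refine Finset.sum_le_sum fun i _ => ?_
          have := Real.log_le_sub_one_of_pos (norm_pos_iff.mpr (ha i).1)
          linarith
      _ = -Real.log (p S) := by
          rw [Finset.sum_neg_distrib, Real.log_prod]
          intro i _
          exact norm_ne_zero_iff.mpr (ha i).1
      _ ≤ -Real.log ‖G₀ 0‖ := neg_le_neg (Real.log_le_log hG₀0' (hlow S))
  · have hexp : Complex.exp ((G₀ 0).arg * Complex.I) = u := by
      have h1 := Complex.norm_mul_exp_arg_mul_I (G₀ 0)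
      rw [eq_div_iff (by exact_mod_cast hG₀0'.ne'), mul_comm]
      exact h1
    rw [hexp, (hprod z hz).tprod_eq, hGG z hz]
    field_simp

end Pool.Agent.H40.BP
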