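import Pool.Agent.H5.BP.Basic

/-!
Module E: perturbation of a finite Blaschke product to one with simple critical points and distinct
critical values.
-/

set_option autoImplicit false

namespace Pool.Agent.H40.BP.Pert

open Complex Metric Set Filter Topology Pool.Agent.H5.BP

lemma injOn_nhds {L : ℂ → ℂ} {p : ℂ} (hL : AnalyticAt ℂ L p) (h : deriv L p ≠ 0) :
    ∃ N ∈ 𝓝 p, InjOn L N := by
  have h1 : HasStrictDerivAt L (deriv L p) p := hL.hasStrictDerivAt
  have h2 := h1.hasStrictFDerivAt_equiv h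
  exact ⟨(h2.toOpenPartialHomeomorph L).source,
    (h2.toOpenPartialHomeomorph L).open_source.mem_nhds h2.mem_toOpenPartialHomeomorph_source,
    (h2.toOpenPartialHomeomorph L).injOn⟩

/-- The critical points of `H + s k` near a critical point `p` of `H`. -/
lemma local_lemma {H k : ℂ → ℂ} {p : ℂ} (hH : AnalyticAt ℂ H p) (hk : AnalyticAt ℂ k p)
    (hnc : ¬ ∀ᶠ z in 𝓝 p, H z - H p = 0) (hcrit : deriv H p = 0) (hk' : deriv k p ≠ 0) :
    ∃ L : ℂ → ℂ, L p = k p ∧ ContinuousAt L p ∧ ∃ N ∈ 𝓝 p, InjOn L N ∧ ∀ z ∈ N, ∀ s : ℂ, s ≠ 0 →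
      deriv H z + s * deriv k z = 0 →
      (deriv (deriv H) z + s * deriv (deriv k) z ≠ 0) ∧ H z + s * k z = H p + s * L z := by
  have hH0 : AnalyticAt ℂ (fun z => H z - H p) p := hH.sub analyticAt_const
  have htop : analyticOrderAt (fun z => H z - H p) p ≠ ⊤ := by
    rw [Ne, analyticOrderAt_eq_top]
    exact hnc
  obtain ⟨g, hg, hg0, hgeq⟩ := hH0.analyticOrderAt_ne_top.mp htop
  generalize analyticOrderNatAt (fun z => H z - H p) p = m at hgeq
  have hm0 : m ≠ 0 := by
    rintro rfl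
    have := hgeq.self_of_nhds
    simp only [sub_self, pow_zero, one_smul] at this
    exact hg0 this.symm
  obtain ⟨n, rfl⟩ := Nat.exists_eq_succ_of_ne_zero hm0
  rw [Nat.succ_eq_add_one] at hgeq
  -- the derivative
  have hgd : ∀ᶠ z in 𝓝 p, AnalyticAt ℂ g z := hg.eventually_analyticAt
  have hHd : ∀ᶠ z in 𝓝 p, deriv H z =
      (z - p) ^ n * ((n + 1 : ℂ) * g z + (z - p) * deriv g z) := by
    filter_upwards [hgeq.eventually_nhds, hgd] with z hz hgz
    have h1 : HasDerivAt (fun z => H z - H p) (((n + 1 : ℕ) : ℂ) * (z - p) ^ n * 1 * g z +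
        (z - p) ^ (n + 1) * deriv g z) z := by
      have h2 : HasDerivAt (fun z : ℂ => (z - p) ^ (n + 1)) (((n + 1 : ℕ) : ℂ) * (z - p) ^ n * 1) z := by
        have := ((hasDerivAt_id z).sub_const p).fun_pow (n + 1)
        simpa using this
      have h3 := h2.mul hgz.differentiableAt.hasDerivAt
      refine h3.congr_of_eventuallyEq ?_
      filter_upwards [hz] with w hw
      rw [hw, smul_eq_mul]
      rfl
    have h4 : HasDerivAt H (((n + 1 : ℕ) : ℂ) * (z - p) ^ n * 1 * g z +
        (z - p) ^ (n + 1) * deriv g z) z := by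
      have := h1.add_const (H p)
      simpa using this
    rw [h4.deriv]
    push_cast
    ring
  have hn0 : n ≠ 0 := by
    rintro rfl
    have := hHd.self_of_nhds
    rw [hcrit, sub_self] at this
    simp at this
    exact hg0 this.symm
  let φ : ℂ → ℂ := fun z => (n + 1 : ℂ) * g z + (z - p) * deriv g z
  have hφ : AnalyticAt ℂ φ p := by
    have := hg.deriv
    fun_prop
  have hn1 : ((n : ℂ) + 1) ≠ 0 := Nat.cast_add_one_ne_zero n
  have hφp : φ p = (n + 1 : ℂ) * g p := by simp [φ]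
  have hφ0 : φ p ≠ 0 := by rw [hφp]; exact mul_ne_zero hn1 hg0
  have hφd : ∀ᶠ z in 𝓝 p, φ z ≠ 0 := hφ.continuousAt.eventually_ne hφ0
  have hφa : ∀ᶠ z in 𝓝 p, AnalyticAt ℂ φ z := hφ.eventually_analyticAt
  let μ : ℂ → ℂ := fun z => g z / φ z
  have hμ : AnalyticAt ℂ μ p := hg.div hφ hφ0
  have hμp : μ p = 1 / (n + 1 : ℂ) := by
    simp only [μ, hφp]
    field_simp
  let L : ℂ → ℂ := fun z => k z - (z - p) * μ z * deriv k z
  have hL : AnalyticAt ℂ L p := by
    have := hk.deriv
    fun_prop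
  have hLp : L p = k p := by simp [L]
  have hL' : deriv L p = deriv k p * (n / (n + 1 : ℂ)) := by
    have h1 : HasDerivAt (fun z : ℂ => (z - p) * μ z) (1 * μ p + (p - p) * deriv μ p) p :=
      ((hasDerivAt_id p).sub_const p).mul hμ.differentiableAt.hasDerivAt
    have h2 := h1.mul hk.deriv.differentiableAt.hasDerivAt
    have h3 := hk.differentiableAt.hasDerivAt.sub h2
    have h4 : deriv L p = _ := h3.deriv
    rw [h4, hμp]
    simp only [sub_self, zero_mul, add_zero, one_mul]
    field_simp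
    ring
  have hL'0 : deriv L p ≠ 0 := by
    rw [hL']
    exact mul_ne_zero hk' (div_ne_zero (Nat.cast_ne_zero.mpr hn0) hn1)
  obtain ⟨N₀, hN₀, hinj⟩ := injOn_nhds hL hL'0
  -- no double critical points
  let ν : ℂ → ℂ := fun z => n + (z - p) * deriv φ z / φ z
  have hdouble : ∀ᶠ z in 𝓝 p, (z - p) * deriv (deriv k) z - ν z * deriv k z ≠ 0 := by
    have hcont : ContinuousAt (fun z => (z - p) * deriv (deriv k) z - ν z * deriv k z) p := by
      have h1 := hk.deriv.continuousAt
      have h2 := hk.deriv.deriv.continuousAt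
      have h3 := hφ.deriv.continuousAt
      have h4 := hφ.continuousAt
      have h5 : ContinuousAt ν p := by
        apply ContinuousAt.add continuousAt_const
        apply ContinuousAt.div _ h4 hφ0
        exact (continuousAt_id.sub continuousAt_const).mul h3
      exact ((continuousAt_id.sub continuousAt_const).mul h2).sub (h5.mul h1)
    apply hcont.eventually_ne
    simp only [sub_self, zero_mul, ν, zero_div, add_zero, zero_sub]
    exact neg_ne_zero.mpr (mul_ne_zero (Nat.cast_ne_zero.mpr hn0) hk')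
  refine ⟨L, hLp, hL.continuousAt, N₀ ∩ {z | (H z - H p = (z - p) ^ (n + 1) • g z) ∧
    (∀ᶠ w in 𝓝 z, deriv H w = (w - p) ^ n * φ w) ∧ φ z ≠ 0 ∧ AnalyticAt ℂ φ z ∧
      (z - p) * deriv (deriv k) z - ν z * deriv k z ≠ 0}, ?_, hinj.mono inter_subset_left, ?_⟩
  · refine inter_mem hN₀ ?_
    filter_upwards [hgeq, hHd.eventually_nhds, hφd, hφa, hdouble] with z h1 h2 h3 h4 h5
    exact ⟨h1, h2, h3, h4, h5⟩
  · rintro z ⟨-, h1, h2, h3, h4, h5⟩ s hs hz
    have e1 : deriv H z = (z - p) ^ n * φ z := h2.self_of_nhds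
    have e2 : deriv H z = -(s * deriv k z) := eq_neg_of_add_eq_zero_left hz
    constructor
    · intro hdd
      have e3 : (z - p) * deriv (deriv H) z = ν z * deriv H z := by
        have e4 : HasDerivAt (deriv H) ((n : ℂ) * (z - p) ^ (n - 1) * 1 * φ z +
            (z - p) ^ n * deriv φ z) z := by
          have h6 : HasDerivAt (fun w : ℂ => (w - p) ^ n) ((n : ℂ) * (z - p) ^ (n - 1) * 1) z := by
            have := ((hasDerivAt_id z).sub_const p).fun_pow n
            simpa using this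
          have h7 := h6.mul h4.differentiableAt.hasDerivAt
          exact h7.congr_of_eventuallyEq h2
        rw [e4.deriv, e1]
        obtain ⟨n', rfl⟩ := Nat.exists_eq_succ_of_ne_zero hn0
        simp only [ν, Nat.succ_eq_add_one, Nat.add_sub_cancel]
        field_simp
        ring
      have e5 : deriv (deriv H) z = -(s * deriv (deriv k) z) := eq_neg_of_add_eq_zero_left hdd
      rw [e5, e2] at e3
      apply h5
      have e6 : s * ((z - p) * deriv (deriv k) z - ν z * deriv k z) = 0 := by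
        linear_combination -e3
      exact (mul_eq_zero.mp e6).resolve_left hs
    · have e3 : H z - H p = (z - p) * μ z * deriv H z := by
        rw [h1, e1, smul_eq_mul]
        simp only [μ]
        field_simp
        ring
      simp only [L]
      rw [e2] at e3
      linear_combination e3


/-- the derivative does not vanish on the unit circle -/
lemma deriv_circle {P : ℂ → ℂ} (hP : FB P) {z : ℂ} (hz : ‖z‖ = 1) : deriv P z ≠ 0 := by
  intro h0
  have h1 : HasDerivAt P 0 z := by
    rw [← h0]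
    exact (hP.differentiableAt hz.le).hasDerivAt
  have h2 := h1.isLittleO.def (c := 1 / 2) (by norm_num)
  obtain ⟨δ, hδ, hball⟩ := Metric.eventually_nhds_iff.mp h2
  set t : ℝ := min (δ / 2) (1 / 2) with ht
  have ht0 : 0 < t := lt_min (by positivity) (by norm_num)
  have ht1 : t ≤ 1 / 2 := min_le_right _ _
  have htδ : t < δ := (min_le_left _ _).trans_lt (by linarith)
  let w : ℂ := ((1 - t : ℝ) : ℂ) * z
  have hwz : w - z = ((-t : ℝ) : ℂ) * z := by
    simp only [w]
    push_cast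
    ring
  have hn : ‖w - z‖ = t := by
    rw [hwz, norm_mul, hz, mul_one, Complex.norm_real, norm_neg, Real.norm_of_nonneg ht0.le]
  have hw : ‖w‖ = 1 - t := by
    simp only [w]
    rw [norm_mul, hz, mul_one, Complex.norm_real, Real.norm_of_nonneg (by linarith)]
  have h3 := hball (show dist w z < δ by rw [dist_eq_norm, hn]; exact htδ)
  simp only [smul_zero, sub_zero] at h3
  rw [hn] at h3
  have h4 : ‖P w‖ ≤ 1 - t := by
    rw [← hw]
    exact hP.norm_le (by rw [hw]; linarith)
  have h5 : ‖P z‖ = 1 := hP.uni z hz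
  have h6 : ‖P z‖ ≤ ‖P w‖ + ‖P w - P z‖ := by
    have : P z = P w - (P w - P z) := by ring
    conv_lhs => rw [this]
    exact norm_sub_le _ _
  linarith

lemma re_inv {w : ℂ} (hw : ‖w‖ = 1) (h1 : w ≠ 1) : ((1 - w)⁻¹).re = 1 / 2 := by
  rw [Complex.inv_re, Complex.normSq_apply]
  have h2 : w.re * w.re + w.im * w.im = 1 := by
    rw [← Complex.normSq_apply, Complex.normSq_eq_norm_sq, hw]
    norm_num
  have h3 : w.re ≠ 1 := by
    intro h
    apply h1
    have h4 : w.im = 0 := by
      have : w.im * w.im = 0 := by rw [h] at h2; linarith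
      exact mul_self_eq_zero.mp this
    exact Complex.ext h h4
  simp only [Complex.sub_re, Complex.one_re, Complex.sub_im, Complex.one_im]
  have h5 : (1 - w.re) * (1 - w.re) + (0 - w.im) * (0 - w.im) = 2 * (1 - w.re) := by nlinarith
  rw [h5]
  have h6 : 1 - w.re ≠ 0 := sub_ne_zero.mpr h3.symm
  field_simp

/-- the value `1` is taken on the circle -/
lemma exists_one {P : ℂ → ℂ} (hP : FB P) : ∃ ζ : ℂ, ‖ζ‖ = 1 ∧ P ζ = 1 := by
  by_contra hcon
  push Not at hcon
  have hne : ∀ z, ‖z‖ ≤ 1 → P z ≠ 1 := by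
    intro z hz h
    rcases hz.lt_or_eq with h1 | h1
    · have := hP.norm_lt_one h1
      rw [h, norm_one] at this
      exact lt_irrefl _ this
    · exact hcon z h1 h
  have hd : ∀ z, ‖z‖ ≤ 1 → DifferentiableAt ℂ (fun z => Complex.exp ((1 - P z)⁻¹)) z := by
    intro z hz
    have h1 := hP.differentiableAt hz
    have h2 : 1 - P z ≠ 0 := sub_ne_zero.mpr (hne z hz).symm
    exact (((differentiableAt_const _).sub h1).inv h2).cexp
  have h1 : DiffContOnCl ℂ (fun z => Complex.exp ((1 - P z)⁻¹)) (ball 0 1) := by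
    refine ⟨fun z hz => (hd z (mem_ball_zero_iff.mp hz).le).differentiableWithinAt, ?_⟩
    rw [closure_ball (0 : ℂ) one_ne_zero]
    exact fun z hz => (hd z (mem_closedBall_zero_iff.mp hz)).continuousAt.continuousWithinAt
  have h2 := Complex.norm_le_of_forall_mem_frontier_norm_le (C := Real.exp (1 / 2))
    isBounded_ball h1 (by
      intro w hw
      rw [frontier_ball (0 : ℂ) one_ne_zero] at hw
      have hw1 : ‖w‖ = 1 := by simpa using hw
      rw [Complex.norm_exp, re_inv (hP.uni w hw1) (hcon w hw1)])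
    (subset_closure (mem_ball_self one_pos))
  rw [Complex.norm_exp, hP.zero, sub_zero, inv_one, Complex.one_re] at h2
  have := Real.exp_le_exp.mp h2
  norm_num at this

lemma dslope_an {P : ℂ → ℂ} {U : Set ℂ} (hP : AnalyticOnNhd ℂ P U) {ζ : ℂ} (hζ : ζ ∈ U) :
    AnalyticOnNhd ℂ (dslope P ζ) U := by
  intro z hz
  by_cases h : z = ζ
  · subst h
    obtain ⟨p, hp⟩ := hP z hz
    exact ⟨_, hp.has_fpower_series_dslope_fslope⟩
  · have h1 : (fun w => (P w - P ζ) / (w - ζ)) =ᶠ[𝓝 z] dslope P ζ := by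
      filter_upwards [isOpen_ne.mem_nhds h] with w hw
      rw [dslope_of_ne _ hw, slope_def_field]
    refine AnalyticAt.congr ?_ h1
    have h2 := hP z hz
    apply AnalyticAt.div
    · exact h2.sub analyticAt_const
    · exact analyticAt_id.sub analyticAt_const
    · exact sub_ne_zero.mpr h

/-- derivatives of `c (1 + f) / (1 - f)` -/
lemma cayley_deriv {f : ℂ → ℂ} {c z : ℂ} (hf : AnalyticAt ℂ f z) (h1 : f z ≠ 1) :
    deriv (fun w => c * ((1 + f w) / (1 - f w))) z = 2 * c * deriv f z / (1 - f z) ^ 2 ∧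
    (deriv f z = 0 → deriv (deriv f) z = 0 →
      deriv (deriv (fun w => c * ((1 + f w) / (1 - f w)))) z = 0) := by
  have hd : ∀ w, AnalyticAt ℂ f w → f w ≠ 1 →
      deriv (fun w => c * ((1 + f w) / (1 - f w))) w = 2 * c * deriv f w / (1 - f w) ^ 2 := by
    intro w hw hw1
    have h2 : 1 - f w ≠ 0 := sub_ne_zero.mpr hw1.symm
    have h3 := hw.differentiableAt.hasDerivAt
    have h4 := (((h3.const_add 1).div (h3.const_sub 1) h2).const_mul c).deriv
    refine Eq.trans h4 ?_
    field_simp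
    ring
  refine ⟨hd z hf h1, fun h2 h3 => ?_⟩
  have h4 : deriv (fun w => c * ((1 + f w) / (1 - f w))) =ᶠ[𝓝 z]
      fun w => deriv f w * (2 * c / (1 - f w) ^ 2) := by
    filter_upwards [hf.eventually_analyticAt, hf.continuousAt.eventually_ne h1] with w h5 h6
    rw [hd w h5 h6]
    ring
  rw [h4.deriv_eq]
  have h5 : 1 - f z ≠ 0 := sub_ne_zero.mpr h1.symm
  have h6 : DifferentiableAt ℂ (fun w => 2 * c / (1 - f w) ^ 2) z := by
    have := hf.differentiableAt
    apply DifferentiableAt.div (differentiableAt_const _) ((this.const_sub 1).pow 2)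
    exact pow_ne_zero 2 h5
  have h7 := (hf.deriv.differentiableAt.hasDerivAt.mul h6.hasDerivAt).deriv
  refine Eq.trans h7 ?_
  rw [h2, h3, zero_mul, zero_mul, add_zero]

lemma sep {L L' : ℂ → ℂ} {p p' v v' : ℂ} (hL : ContinuousAt L p) (hL' : ContinuousAt L' p')
    (hne : L p ≠ L' p') : ∀ᶠ δ in 𝓝[>] (0 : ℝ), ∀ s : ℝ, 0 < s → s < δ → ∀ z ∈ ball p δ,
      ∀ w ∈ ball p' δ, v + s * L z ≠ v' + s * L' w := by
  by_cases hv : v = v'
  · subst hv
    have hε : 0 < dist (L p) (L' p') / 2 := by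
      have := dist_pos.mpr hne
      linarith
    obtain ⟨δ₁, h1, h1'⟩ := Metric.continuousAt_iff.mp hL _ hε
    obtain ⟨δ₂, h2, h2'⟩ := Metric.continuousAt_iff.mp hL' _ hε
    filter_upwards [Ioo_mem_nhdsGT (lt_min h1 h2)] with δ hδ s hs _ z hz w hw heq
    have e1 := h1' ((mem_ball.mp hz).trans (hδ.2.trans_le (min_le_left _ _)))
    have e2 := h2' ((mem_ball.mp hw).trans (hδ.2.trans_le (min_le_right _ _)))
    have hs' : (s : ℂ) ≠ 0 := by exact_mod_cast hs.ne'
    have e3 : L z = L' w := mul_left_cancel₀ hs' (add_left_cancel heq)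
    have e4 := dist_triangle_left (L p) (L' p') (L z)
    rw [e3] at e4 e1
    linarith
  · obtain ⟨δ₁, h1, h1'⟩ := Metric.continuousAt_iff.mp hL 1 one_pos
    obtain ⟨δ₂, h2, h2'⟩ := Metric.continuousAt_iff.mp hL' 1 one_pos
    have hd : 0 < ‖v - v'‖ := norm_pos_iff.mpr (sub_ne_zero.mpr hv)
    set B : ℝ := ‖L p‖ + ‖L' p'‖ + 2 with hB
    have hB0 : 0 < B := by positivity
    filter_upwards [Ioo_mem_nhdsGT (lt_min (lt_min h1 h2) (div_pos hd hB0))] with
      δ hδ s hs hsδ z hz w hw heq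
    have hδ1 : δ < δ₁ := hδ.2.trans_le ((min_le_left _ _).trans (min_le_left _ _))
    have hδ2 : δ < δ₂ := hδ.2.trans_le ((min_le_left _ _).trans (min_le_right _ _))
    have hδ3 : δ < ‖v - v'‖ / B := hδ.2.trans_le (min_le_right _ _)
    have e1 := h1' ((mem_ball.mp hz).trans hδ1)
    have e2 := h2' ((mem_ball.mp hw).trans hδ2)
    rw [dist_eq_norm] at e1 e2
    have n1 : ‖L z‖ ≤ ‖L p‖ + 1 := by
      have : L z = L p + (L z - L p) := by ring
      rw [this]
      exact (norm_add_le _ _).trans (by linarith)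
    have n2 : ‖L' w‖ ≤ ‖L' p'‖ + 1 := by
      have : L' w = L' p' + (L' w - L' p') := by ring
      rw [this]
      exact (norm_add_le _ _).trans (by linarith)
    have e3 : v - v' = s * (L' w - L z) := by linear_combination heq
    have e4 : ‖v - v'‖ ≤ s * B := by
      rw [e3, norm_mul, Complex.norm_real, Real.norm_of_nonneg hs.le]
      apply mul_le_mul_of_nonneg_left _ hs.le
      exact (norm_sub_le _ _).trans (by rw [hB]; linarith)
    have e5 : s * B < ‖v - v'‖ := by
      rw [← lt_div_iff₀ hB0]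
      exact hsδ.trans hδ3
    linarith

theorem pert : S_pert := by
  intro P ρ η hP hρ hη hcrit
  obtain ⟨ζ, hζ, hPζ⟩ := exists_one hP
  have hζ0 : ζ ≠ 0 := norm_ne_zero_iff.mp (by rw [hζ]; exact one_ne_zero)
  set q : ℂ → ℂ := dslope P ζ with hqdef
  have hq : AnalyticOnNhd ℂ q (closedBall 0 1) := dslope_an hP.an (by simpa using hζ.le)
  have hqne : ∀ z, z ≠ ζ → q z = (P z - 1) / (z - ζ) := by
    intro z hz
    rw [hqdef, dslope_of_ne _ hz, slope_def_field, hPζ]
  obtain ⟨M₀, hM₀⟩ := (isCompact_closedBall (0 : ℂ) 1).exists_bound_of_continuousOn hq.continuousOn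
  set M : ℝ := |M₀| + 1 with hMdef
  have hM0 : 0 < M := by positivity
  have hM : ∀ z, ‖z‖ ≤ 1 → ‖q z‖ ≤ M := by
    intro z hz
    have := hM₀ z (by simpa using hz)
    have h2 := le_abs_self M₀
    rw [hMdef]
    linarith
  have hPne : ∀ z, ‖z‖ < 1 → P z ≠ 1 := by
    intro z hz h
    have := hP.norm_lt_one hz
    rw [h, norm_one] at this
    exact lt_irrefl _ this
  have hzne : ∀ z, ‖z‖ < 1 → z ≠ ζ := by
    rintro z hz rfl
    rw [hζ] at hz
    exact lt_irrefl _ hz
  -- the functions `H` and `k`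
  let H : ℂ → ℂ := fun z => 1 * ((1 + P z) / (1 - P z))
  let k : ℂ → ℂ := fun z => (ζ + z) / (ζ - z)
  have hPa : ∀ z, ‖z‖ < 1 → AnalyticAt ℂ P z := fun z hz => hP.an z (by simpa using hz.le)
  have hHa : ∀ z, ‖z‖ < 1 → AnalyticAt ℂ H z := by
    intro z hz
    have h1 := hPa z hz
    exact analyticAt_const.mul ((analyticAt_const.add h1).div (analyticAt_const.sub h1)
      (sub_ne_zero.mpr (hPne z hz).symm))
  have hka : ∀ z, ‖z‖ < 1 → AnalyticAt ℂ k z := by
    intro z hz
    exact (analyticAt_const.add analyticAt_id).div (analyticAt_const.sub analyticAt_id)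
      (sub_ne_zero.mpr (hzne z hz).symm)
  have hkd : ∀ z, ‖z‖ < 1 → deriv k z ≠ 0 := by
    intro z hz
    have h2 : ζ - z ≠ 0 := sub_ne_zero.mpr (hzne z hz).symm
    have h4 := (((hasDerivAt_id z).const_add ζ).div ((hasDerivAt_id z).const_sub ζ) h2).deriv
    have h5 : deriv k z = 2 * ζ / (ζ - z) ^ 2 := by
      refine Eq.trans h4 ?_
      simp only [id]
      ring
    rw [h5]
    exact div_ne_zero (mul_ne_zero two_ne_zero hζ0) (pow_ne_zero 2 h2)
  have hkinj : ∀ z w, ‖z‖ < 1 → ‖w‖ < 1 → k z = k w → z = w := by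
    intro z w hz hw h
    have h2 : ζ - z ≠ 0 := sub_ne_zero.mpr (hzne z hz).symm
    have h3 : ζ - w ≠ 0 := sub_ne_zero.mpr (hzne w hw).symm
    simp only [k] at h
    rw [div_eq_div_iff h2 h3] at h
    have h4 : (2 * ζ) * (z - w) = 0 := by linear_combination h
    exact sub_eq_zero.mp ((mul_eq_zero.mp h4).resolve_left (mul_ne_zero two_ne_zero hζ0))
  -- the critical points of `P`
  let C : Set ℂ := {z | ‖z‖ < 1 ∧ deriv P z = 0}
  have hC : C.Finite := hP.crit_finite
  have hloc : ∀ p ∈ C, ∃ L : ℂ → ℂ, L p = k p ∧ ContinuousAt L p ∧ ∃ N ∈ 𝓝 p, InjOn L N ∧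
      ∀ z ∈ N, ∀ s : ℂ, s ≠ 0 → deriv H z + s * deriv k z = 0 →
      (deriv (deriv H) z + s * deriv (deriv k) z ≠ 0) ∧ H z + s * k z = H p + s * L z := by
    rintro p ⟨hp1, hp2⟩
    refine local_lemma (hHa p hp1) (hka p hp1) ?_ ?_ (hkd p hp1)
    · intro hev
      -- then `P` is constant
      have h1 : ∀ᶠ z in 𝓝 p, P z = P p := by
        filter_upwards [hev, isOpen_ball.mem_nhds (mem_ball_zero_iff.mpr hp1)] with z hz hzb
        have hz1 := hPne z (mem_ball_zero_iff.mp hzb)
        have hp3 := hPne p hp1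
        have h2 : 1 - P z ≠ 0 := sub_ne_zero.mpr hz1.symm
        have h3 : 1 - P p ≠ 0 := sub_ne_zero.mpr hp3.symm
        have h4 := sub_eq_zero.mp hz
        simp only [H, one_mul] at h4
        rw [div_eq_div_iff h2 h3] at h4
        linear_combination h4 / 2
      have h2 := (hP.differentiableOn.analyticOnNhd isOpen_ball).eqOn_of_preconnected_of_eventuallyEq
        (analyticOnNhd_const (v := P p)) (convex_ball (0 : ℂ) 1).isPreconnected
        (mem_ball_zero_iff.mpr hp1) h1
      exact hP.not_const (P p) fun z hz => h2 (mem_ball_zero_iff.mpr hz)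
    · rw [(cayley_deriv (c := 1) (hPa p hp1) (hPne p hp1)).1, hp2]
      simp
  choose! L hL1 hL2 N hN1 hN2 hN3 using hloc
  -- a common radius
  have hρball : IsOpen {z : ℂ | ρ < ‖z‖ ∧ ‖z‖ < 1} :=
    (isOpen_lt continuous_const continuous_norm).inter (isOpen_lt continuous_norm continuous_const)
  have hδev : ∀ᶠ δ in 𝓝[>] (0 : ℝ), ∀ p ∈ C, ball p δ ⊆ N p ∩ {z : ℂ | ρ < ‖z‖ ∧ ‖z‖ < 1} := by
    rw [Filter.eventually_all_finite hC]
    intro p hp
    obtain ⟨ε, hε, hsub⟩ := Metric.mem_nhds_iff.mp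
      (inter_mem (hN1 p hp) (hρball.mem_nhds ⟨hcrit p hp.1 hp.2, hp.1⟩))
    filter_upwards [Ioo_mem_nhdsGT hε] with δ hδ
    exact (ball_subset_ball hδ.2.le).trans hsub
  have hδev2 : ∀ᶠ δ in 𝓝[>] (0 : ℝ), ∀ p ∈ C, ∀ p' ∈ C, p ≠ p' → ∀ s : ℝ, 0 < s → s < δ →
      ∀ z ∈ ball p δ, ∀ w ∈ ball p' δ, H p + s * L p z ≠ H p' + s * L p' w := by
    rw [Filter.eventually_all_finite hC]
    intro p hp
    rw [Filter.eventually_all_finite hC]
    intro p' hp'
    by_cases h : p = p'
    · exact Eventually.of_forall fun δ h' => absurd h h'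
    · have h1 := sep (v := H p) (v' := H p') (hL2 p hp) (hL2 p' hp') (by
        rw [hL1 p hp, hL1 p' hp']
        exact fun h2 => h (hkinj p p' hp.1 hp'.1 h2))
      filter_upwards [h1] with δ hδ _
      exact hδ
  obtain ⟨δ, hδ1, hδ2, hδ0⟩ := (hδev.and (hδev2.and self_mem_nhdsWithin)).exists
  have hδ0' : 0 < δ := hδ0
  -- the remaining compact set
  let K : Set ℂ := closedBall 0 1 \ ⋃ p ∈ C, ball p δ
  have hK : IsCompact K := (isCompact_closedBall (0 : ℂ) 1).diff
    (isOpen_biUnion fun p _ => isOpen_ball)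
  have hKne : ∀ z ∈ K, deriv P z ≠ 0 := by
    rintro z ⟨hz1, hz2⟩ h0
    rcases (mem_closedBall_zero_iff.mp hz1).lt_or_eq with h1 | h1
    · exact hz2 (mem_biUnion (show z ∈ C from ⟨h1, h0⟩) (mem_ball_self hδ0'))
    · exact deriv_circle hP h1 h0
  let F : ℝ × ℂ → ℂ := fun x => (deriv P x.2 + x.1 * (q x.2 + x.2 * deriv q x.2)) *
    (1 + x.1 * ζ * q x.2) - (P x.2 + x.1 * x.2 * q x.2) * (x.1 * ζ * deriv q x.2)
  have hFev : ∀ᶠ s in 𝓝 (0 : ℝ), ∀ z ∈ K, F (s, z) ≠ 0 := by
    apply hK.eventually_forall_of_forall_eventually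
    intro z hz
    have hz1 : z ∈ closedBall (0 : ℂ) 1 := hz.1
    have c1 : ContinuousAt (fun x : ℝ × ℂ => P x.2) (0, z) :=
      (hP.an z hz1).continuousAt.comp continuousAt_snd
    have c2 : ContinuousAt (fun x : ℝ × ℂ => deriv P x.2) (0, z) :=
      ContinuousAt.comp (g := deriv P) (f := fun x : ℝ × ℂ => x.2)
        (hP.an z hz1).deriv.continuousAt continuousAt_snd
    have c3 : ContinuousAt (fun x : ℝ × ℂ => q x.2) (0, z) :=
      ContinuousAt.comp (g := q) (f := fun x : ℝ × ℂ => x.2)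
        (hq z hz1).continuousAt continuousAt_snd
    have c4 : ContinuousAt (fun x : ℝ × ℂ => deriv q x.2) (0, z) :=
      ContinuousAt.comp (g := deriv q) (f := fun x : ℝ × ℂ => x.2)
        (hq z hz1).deriv.continuousAt continuousAt_snd
    have c5 : ContinuousAt (fun x : ℝ × ℂ => (x.1 : ℂ)) (0, z) :=
      (Complex.continuous_ofReal.comp continuous_fst).continuousAt
    have c6 : ContinuousAt (fun x : ℝ × ℂ => x.2) (0, z) := continuousAt_snd
    have hFc : ContinuousAt F (0, z) :=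
      ((c2.add (c5.mul (c3.add (c6.mul c4)))).mul
        (continuousAt_const.add ((c5.mul continuousAt_const).mul c3))).sub
        ((c1.add ((c5.mul c6).mul c3)).mul ((c5.mul continuousAt_const).mul c4))
    have hF0 : F (0, z) ≠ 0 := by
      simp only [F, Complex.ofReal_zero, zero_mul, add_zero, mul_one, sub_zero, mul_zero]
      exact hKne z hz
    exact hFc.eventually_ne hF0
  -- choice of `s`
  have hsev : ∀ᶠ s in 𝓝[>] (0 : ℝ), (∀ z ∈ K, F (s, z) ≠ 0) ∧ 0 < s ∧ s < δ ∧
      s * M ≤ 1 / 2 ∧ 4 * (s * M) ≤ η := by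
    have hm : 0 < min δ (min (1 / (2 * M)) (η / (4 * M))) := by positivity
    filter_upwards [nhdsWithin_le_nhds hFev, Ioo_mem_nhdsGT hm] with s h1 h2
    have h3 : s < 1 / (2 * M) := h2.2.trans_le ((min_le_right _ _).trans (min_le_left _ _))
    have h4 : s < η / (4 * M) := h2.2.trans_le ((min_le_right _ _).trans (min_le_right _ _))
    refine ⟨h1, h2.1, h2.2.trans_le (min_le_left _ _), ?_, ?_⟩
    · rw [lt_div_iff₀ (by positivity)] at h3
      linarith
    · rw [lt_div_iff₀ (by positivity)] at h4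
      linarith
  obtain ⟨s, hsK, hs0, hsδ, hsM, hsη⟩ := hsev.exists
  have hsc : (s : ℂ) ≠ 0 := by exact_mod_cast hs0.ne'
  let D : ℂ → ℂ := fun z => 1 + s * ζ * q z
  let Nn : ℂ → ℂ := fun z => P z + s * z * q z
  let Q : ℂ → ℂ := fun z => Nn z / D z
  have hDn : ∀ z, ‖z‖ ≤ 1 → 1 / 2 ≤ ‖D z‖ := by
    intro z hz
    have h1 : ‖(s : ℂ) * ζ * q z‖ ≤ 1 / 2 := by
      rw [norm_mul, norm_mul, hζ, mul_one, Complex.norm_real, Real.norm_of_nonneg hs0.le]
      exact (mul_le_mul_of_nonneg_left (hM z hz) hs0.le).trans hsM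
    have h2 : ‖(1 : ℂ)‖ ≤ ‖D z‖ + ‖(s : ℂ) * ζ * q z‖ := by
      have : (1 : ℂ) = D z - s * ζ * q z := by simp only [D]; ring
      conv_lhs => rw [this]
      exact norm_sub_le _ _
    rw [norm_one] at h2
    linarith
  have hD0 : ∀ z, ‖z‖ ≤ 1 → D z ≠ 0 := by
    intro z hz h
    have := hDn z hz
    rw [h, norm_zero] at this
    norm_num at this
  have hDa : ∀ z, ‖z‖ ≤ 1 → AnalyticAt ℂ D z := fun z hz =>
    analyticAt_const.add (analyticAt_const.mul (hq z (by simpa using hz)))
  have hNa : ∀ z, ‖z‖ ≤ 1 → AnalyticAt ℂ Nn z := fun z hz =>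
    (hP.an z (by simpa using hz)).add ((analyticAt_const.mul analyticAt_id).mul
      (hq z (by simpa using hz)))
  have hQ : FB Q := by
    refine ⟨?_, ?_, ?_⟩
    · intro z hz
      have hz' : ‖z‖ ≤ 1 := by simpa using hz
      exact (hNa z hz').div (hDa z hz') (hD0 z hz')
    · intro z hz
      have hD := hD0 z hz.le
      have hz0 : z ≠ 0 := norm_ne_zero_iff.mp (by rw [hz]; exact one_ne_zero)
      by_cases h : z = ζ
      · subst h
        have : Nn z = D z := by simp only [Nn, D, hPζ]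
        simp only [Q]
        rw [this, div_self hD, norm_one]
      · have hP1 := hP.uni z hz
        have hP0 : P z ≠ 0 := norm_ne_zero_iff.mp (by rw [hP1]; exact one_ne_zero)
        have e1 : ∀ w : ℂ, ‖w‖ = 1 → (starRingEnd ℂ) w = w⁻¹ := by
          intro w hw
          rw [Complex.inv_def, Complex.normSq_eq_norm_sq, hw]
          simp
        have hN : Nn z = P z * (starRingEnd ℂ) (D z) := by
          simp only [Nn, D]
          rw [hqne z h]
          simp only [map_add, map_one, map_mul, Complex.conj_ofReal, map_div₀, map_sub]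
          rw [e1 ζ hζ, e1 z hz, e1 _ hP1]
          have h1 : z - ζ ≠ 0 := sub_ne_zero.mpr h
          have h2 : z⁻¹ - ζ⁻¹ = (ζ - z) / (z * ζ) := by
            field_simp
          have h3 : ζ - z ≠ 0 := sub_ne_zero.mpr (Ne.symm h)
          rw [h2]
          have h4 : (P z)⁻¹ - 1 = (1 - P z) / P z := by
            field_simp
          rw [h4]
          have h5 : (P z - 1) / (z - ζ) = (1 - P z) / (ζ - z) := by
            rw [div_eq_div_iff h1 h3]
            ring
          rw [h5]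
          field_simp
        simp only [Q]
        rw [norm_div, hN, norm_mul, hP1, one_mul, Complex.norm_conj,
          div_self (norm_ne_zero_iff.mpr hD)]
    · simp only [Q, Nn, hP.zero]
      simp
  -- derivative of `Q`
  have hQd : ∀ z, ‖z‖ ≤ 1 → deriv Q z = F (s, z) / D z ^ 2 := by
    intro z hz
    have hq' := (hq z (by simpa using hz)).differentiableAt.hasDerivAt
    have hP' := (hP.differentiableAt hz).hasDerivAt
    have h1 : HasDerivAt Nn (deriv P z + (s * 1 * q z + s * z * deriv q z)) z :=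
      hP'.add (((hasDerivAt_id z).const_mul (s : ℂ)).mul hq')
    have h2 : HasDerivAt D (s * ζ * deriv q z) z := (hq'.const_mul _).const_add 1
    have h3 := (h1.div h2 (hD0 z hz)).deriv
    refine Eq.trans h3 ?_
    congr 1
    simp only [F, Nn, D]
    ring
  -- `H + s k` in terms of `Q`
  have hHs : ∀ z, ‖z‖ < 1 → H z + s * k z = (1 + s) * ((1 + Q z) / (1 - Q z)) := by
    intro z hz
    have hD := hD0 z hz.le
    have h1 : 1 - P z ≠ 0 := sub_ne_zero.mpr (hPne z hz).symm
    have h2 : ζ - z ≠ 0 := sub_ne_zero.mpr (hzne z hz).symm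
    have h2' : z - ζ ≠ 0 := sub_ne_zero.mpr (hzne z hz)
    have hq1 : q z = (1 - P z) / (ζ - z) := by
      rw [hqne z (hzne z hz), div_eq_div_iff h2' h2]
      ring
    have hQ1 : 1 - Q z ≠ 0 := by
      intro h
      have h3 := hQ.norm_lt_one hz
      rw [← sub_eq_zero.mp h, norm_one] at h3
      exact lt_irrefl _ h3
    have hDQ : D z - Nn z ≠ 0 := by
      intro h
      apply hQ1
      simp only [Q]
      rw [sub_eq_zero.mp h, div_self, sub_self]
      rw [← sub_eq_zero.mp h]
      exact hD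
    have e : (1 + Q z) / (1 - Q z) = (D z + Nn z) / (D z - Nn z) := by
      simp only [Q]
      rw [div_eq_div_iff (by simpa only [Q] using hQ1) hDQ]
      field_simp
    rw [e]
    simp only [H, k, one_mul]
    rw [mul_div_assoc', mul_div_assoc', div_add_div _ _ h1 h2, div_eq_div_iff (mul_ne_zero h1 h2) hDQ]
    simp only [D, Nn]
    rw [hq1]
    field_simp
    ring
  have hQa : ∀ z, ‖z‖ < 1 → AnalyticAt ℂ Q z := fun z hz => hQ.an z (by simpa using hz.le)
  have hQne : ∀ z, ‖z‖ < 1 → Q z ≠ 1 := by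
    intro z hz h
    have := hQ.norm_lt_one hz
    rw [h, norm_one] at this
    exact lt_irrefl _ this
  have hevH : ∀ z, ‖z‖ < 1 → (fun w => H w + s * k w) =ᶠ[𝓝 z]
      fun w => (1 + s) * ((1 + Q w) / (1 - Q w)) := by
    intro z hz
    filter_upwards [isOpen_ball.mem_nhds (mem_ball_zero_iff.mpr hz)] with w hw
    exact hHs w (mem_ball_zero_iff.mp hw)
  have hsum : ∀ z, ‖z‖ < 1 → deriv (fun w => H w + s * k w) z = deriv H z + s * deriv k z := by
    intro z hz
    exact ((hHa z hz).differentiableAt.hasDerivAt.add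
      ((hka z hz).differentiableAt.hasDerivAt.const_mul (s : ℂ))).deriv
  have hsum2 : ∀ z, ‖z‖ < 1 → deriv (deriv (fun w => H w + s * k w)) z =
      deriv (deriv H) z + s * deriv (deriv k) z := by
    intro z hz
    have h1 : deriv (fun w => H w + s * k w) =ᶠ[𝓝 z] fun w => deriv H w + s * deriv k w := by
      filter_upwards [isOpen_ball.mem_nhds (mem_ball_zero_iff.mpr hz)] with w hw
      exact hsum w (mem_ball_zero_iff.mp hw)
    rw [h1.deriv_eq]
    exact ((hHa z hz).deriv.differentiableAt.hasDerivAt.add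
      ((hka z hz).deriv.differentiableAt.hasDerivAt.const_mul (s : ℂ))).deriv
  -- the location of the critical points
  have hmain : ∀ z, ‖z‖ < 1 → deriv Q z = 0 → ∃ p ∈ C, z ∈ ball p δ ∧
      deriv (deriv H) z + s * deriv (deriv k) z ≠ 0 ∧ H z + s * k z = H p + s * L p z := by
    intro z hz h0
    have h1 : F (s, z) = 0 := by
      rw [hQd z hz.le] at h0
      exact (div_eq_zero_iff.mp h0).resolve_right (pow_ne_zero 2 (hD0 z hz.le))
    have h2 : z ∉ K := fun h => hsK z h h1
    have h3 : z ∈ ⋃ p ∈ C, ball p δ := by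
      by_contra h
      exact h2 ⟨by simpa using hz.le, h⟩
    obtain ⟨p, hp, hzp⟩ := mem_iUnion₂.mp h3
    have h4 : deriv H z + s * deriv k z = 0 := by
      rw [← hsum z hz, (hevH z hz).deriv_eq, (cayley_deriv (hQa z hz) (hQne z hz)).1, h0]
      simp
    obtain ⟨h5, h6⟩ := hN3 p hp z (hδ1 p hp hzp).1 s hsc h4
    exact ⟨p, hp, hzp, h5, h6⟩
  refine ⟨Q, hQ, ⟨?_, ?_⟩, ?_, ?_⟩
  · intro z hz h0 h00
    obtain ⟨p, hp, hzp, h5, h6⟩ := hmain z hz h0
    apply h5
    rw [← hsum2 z hz, (hevH z hz).deriv.deriv_eq]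
    exact (cayley_deriv (hQa z hz) (hQne z hz)).2 h0 h00
  · intro z w hz hw hz0 hw0 hzw
    obtain ⟨p, hp, hzp, -, h6⟩ := hmain z hz hz0
    obtain ⟨p', hp', hwp, -, h7⟩ := hmain w hw hw0
    have h8 : H z + s * k z = H w + s * k w := by rw [hHs z hz, hHs w hw, hzw]
    rw [h6, h7] at h8
    by_cases h : p = p'
    · subst h
      have h9 : L p z = L p w := mul_left_cancel₀ hsc (add_left_cancel h8)
      exact hN2 p hp (hδ1 p hp hzp).1 (hδ1 p hp hwp).1 h9
    · exact absurd h8 (hδ2 p hp p' hp' h s hs0 hsδ z hzp w hwp)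
  · intro z hz
    have hD := hD0 z hz
    have e : Q z - P z = s * q z * (z - ζ * P z) / D z := by
      simp only [Q]
      rw [eq_div_iff hD, sub_mul, div_mul_cancel₀ _ hD]
      simp only [Nn, D]
      ring
    have h1 : ‖z - ζ * P z‖ ≤ 2 := by
      refine (norm_sub_le _ _).trans ?_
      rw [norm_mul, hζ, one_mul]
      have := hP.norm_le_one hz
      linarith
    have h2 := hDn z hz
    rw [e, norm_div, norm_mul, norm_mul, Complex.norm_real, Real.norm_of_nonneg hs0.le,
      div_le_iff₀ (by linarith)]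
    have h3 : s * ‖q z‖ * ‖z - ζ * P z‖ ≤ s * M * 2 := by
      apply mul_le_mul _ h1 (norm_nonneg _) (by positivity)
      exact mul_le_mul_of_nonneg_left (hM z hz) hs0.le
    have h4 : η * (1 / 2) ≤ η * ‖D z‖ := mul_le_mul_of_nonneg_left h2 hη.le
    linarith
  · intro z hz h0
    obtain ⟨p, hp, hzp, -, -⟩ := hmain z hz h0
    exact (hδ1 p hp hzp).2.1

end Pool.Agent.H40.BP.Pert
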